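import Pool.Agent.N879.SX.Stm
import Pool.Agent.TH928.GS.MV

set_option autoImplicit false

/-!
Project SX, part KD (helper378): zeta minus a short Dirichlet polynomial on a 1-separated set of
heights.
-/

namespace Pool.Agent.N378.SX

open Complex Filter Topology MeasureTheory Set
open Pool.Agent.TH612.GS Pool.Agent.N879.SX

/-- dyadic blocks -/
lemma dyadic (f : ℕ → ℝ) (_hf : ∀ n, 0 ≤ f n) (N : ℕ) (B : ℝ) (J : ℕ)
    (h : ∀ j < J, ∑ n ∈ Finset.Ioc (2 ^ j * N) (2 ^ (j + 1) * N), f n ≤ B) :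
    ∑ n ∈ Finset.Ioc N (2 ^ J * N), f n ≤ J * B := by
  induction J with
  | zero => simp
  | succ J ih =>
    have h1 := ih fun j hj => h j (by omega)
    have h2 := h J (by omega)
    have hN : N ≤ 2 ^ J * N := Nat.le_mul_of_pos_left N (by positivity)
    have hN2 : 2 ^ J * N ≤ 2 ^ (J + 1) * N :=
      Nat.mul_le_mul_right N (Nat.pow_le_pow_right (by norm_num) (by omega))
    rw [← Finset.sum_Ioc_consecutive f hN hN2]
    push_cast
    linarith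

lemma dyadic' (f : ℕ → ℝ) (hf : ∀ n, 0 ≤ f n) (N X : ℕ) (B : ℝ) (J : ℕ) (hX : X ≤ 2 ^ J * N)
    (h : ∀ j < J, ∑ n ∈ Finset.Ioc (2 ^ j * N) (2 ^ (j + 1) * N), f n ≤ B) :
    ∑ n ∈ Finset.Ioc N X, f n ≤ J * B := by
  refine le_trans ?_ (dyadic f hf N B J h)
  refine Finset.sum_le_sum_of_subset_of_nonneg ?_ fun n _ _ => hf n
  exact Finset.Ioc_subset_Ioc_right hX

/-- one block -/
lemma block (κ C θ T : ℝ) (hκ : 0 < κ) (hC : 0 < C) (hθ : 0 < θ) (hT : 2 ≤ T) (L : Finset ℝ)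
    (R : ℝ → ℂ) (M : ℕ) (hM : T ^ θ ≤ M)
    (h : ∑ n ∈ Finset.Ioc M (2 * M), ‖∑ t ∈ L, R t * (n : ℂ) ^ (-(I * (t : ℂ)))‖ ^ 2 ≤
      C * (M * Real.log T + L.card * (M : ℝ) ^ (1 - κ)) * ∑ t ∈ L, ‖R t‖ ^ 2) :
    ∑ n ∈ Finset.Ioc M (2 * M), ‖∑ t ∈ L, R t * (n : ℂ) ^ (-(I * (t : ℂ)))‖ ^ 2 / (n : ℝ) ≤
      C * (Real.log T + L.card * T ^ (-(θ * κ))) * ∑ t ∈ L, ‖R t‖ ^ 2 := by
  have hT0 : 0 < T := by linarith
  have hM1 : (1 : ℝ) ≤ M := le_trans (Real.one_le_rpow (by linarith) hθ.le) hM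
  have hM0 : (0 : ℝ) < M := by linarith
  have hS : 0 ≤ ∑ t ∈ L, ‖R t‖ ^ 2 := Finset.sum_nonneg fun _ _ => by positivity
  calc ∑ n ∈ Finset.Ioc M (2 * M), ‖∑ t ∈ L, R t * (n : ℂ) ^ (-(I * (t : ℂ)))‖ ^ 2 / (n : ℝ)
      ≤ ∑ n ∈ Finset.Ioc M (2 * M), ‖∑ t ∈ L, R t * (n : ℂ) ^ (-(I * (t : ℂ)))‖ ^ 2 / (M : ℝ) := by
        refine Finset.sum_le_sum fun n hn => ?_
        have : (M : ℝ) ≤ n := by exact_mod_cast (Finset.mem_Ioc.1 hn).1.le
        gcongr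
    _ = (∑ n ∈ Finset.Ioc M (2 * M), ‖∑ t ∈ L, R t * (n : ℂ) ^ (-(I * (t : ℂ)))‖ ^ 2) / M := by
        rw [Finset.sum_div]
    _ ≤ (C * (M * Real.log T + L.card * (M : ℝ) ^ (1 - κ)) * ∑ t ∈ L, ‖R t‖ ^ 2) / M := by
        gcongr
    _ = C * (Real.log T + L.card * ((M : ℝ) ^ (1 - κ) / M)) * ∑ t ∈ L, ‖R t‖ ^ 2 := by
        field_simp
    _ ≤ _ := by
        have h1 : (M : ℝ) ^ (1 - κ) / M = (M : ℝ) ^ (-κ) := by
          rw [sub_eq_add_neg, Real.rpow_add hM0, Real.rpow_one]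
          field_simp
        have h2 : (M : ℝ) ^ (-κ) ≤ T ^ (-(θ * κ)) := by
          rw [← mul_neg, Real.rpow_mul hT0.le]
          exact Real.rpow_le_rpow_of_nonpos (Real.rpow_pos_of_pos hT0 _) hM (by linarith)
        rw [h1]
        gcongr

/-- the sum over `N < n ≤ X` -/
lemma blocks (κ C θ T : ℝ) (hκ : 0 < κ) (hC : 0 < C) (hθ : 0 < θ) (hT : 2 ≤ T) (L : Finset ℝ)
    (R : ℝ → ℂ) (N X J : ℕ) (hN : T ^ θ ≤ N) (hX : X ≤ 2 ^ J * N)
    (h : ∀ M : ℕ, T ^ θ ≤ M →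
      ∑ n ∈ Finset.Ioc M (2 * M), ‖∑ t ∈ L, R t * (n : ℂ) ^ (-(I * (t : ℂ)))‖ ^ 2 ≤
      C * (M * Real.log T + L.card * (M : ℝ) ^ (1 - κ)) * ∑ t ∈ L, ‖R t‖ ^ 2) :
    ∑ n ∈ Finset.Ioc N X, ‖∑ t ∈ L, R t * (n : ℂ) ^ (-(I * (t : ℂ)))‖ ^ 2 / (n : ℝ) ≤
      J * (C * (Real.log T + L.card * T ^ (-(θ * κ))) * ∑ t ∈ L, ‖R t‖ ^ 2) := by
  refine dyadic' _ (fun n => by positivity) N X _ J hX fun j _ => ?_
  have h1 : T ^ θ ≤ ((2 ^ j * N : ℕ) : ℝ) := by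
    refine le_trans hN ?_
    exact_mod_cast Nat.le_mul_of_pos_left N (by positivity)
  have h2 := block κ C θ T hκ hC hθ hT L R (2 ^ j * N) h1 (h _ h1)
  rw [show 2 ^ (j + 1) * N = 2 * (2 ^ j * N) by ring]
  exact h2

/-- the difference of the two polynomials -/
lemma PN_sub (N X : ℕ) (hNX : N ≤ X) (t y : ℝ) :
    PN X (t + y) - PN N (t + y) = ∑ n ∈ Finset.Ioc N X, (((n : ℝ) ^ (-(1 / 2 : ℝ)) : ℝ) : ℂ) *
      ((n : ℂ) ^ (-(I * (t : ℂ))) * (n : ℂ) ^ (-(I * (y : ℂ)))) := by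
  have h1 : ∀ M : ℕ, Finset.Icc 1 M = Finset.Ioc 0 M := by
    intro M
    ext n
    simp only [Finset.mem_Icc, Finset.mem_Ioc]
    omega
  unfold PN zN
  rw [h1, h1, ← Finset.sum_Ioc_consecutive _ (Nat.zero_le N) hNX, add_sub_cancel_left]
  refine Finset.sum_congr rfl fun n hn => ?_
  have hn0 : (n : ℂ) ≠ 0 := by
    have := (Finset.mem_Ioc.1 hn).1
    have h2 : n ≠ 0 := by omega
    exact_mod_cast h2
  rw [← Complex.cpow_add _ _ hn0, Complex.ofReal_cpow (by positivity), Complex.ofReal_natCast,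
    ← Complex.cpow_add _ _ hn0]
  congr 1
  push_cast
  ring

/-- the part from the difference of the two polynomials as one Dirichlet polynomial in `y` -/
lemma B_eq (N X : ℕ) (hNX : N ≤ X) (L : Finset ℝ) (R : ℝ → ℂ) (y : ℝ) :
    ∑ t ∈ L, (PN X (t + y) - PN N (t + y)) * R t = ∑ n ∈ Finset.Icc 1 X,
      (if N < n then (((n : ℝ) ^ (-(1 / 2 : ℝ)) : ℝ) : ℂ) * ∑ t ∈ L, R t * (n : ℂ) ^ (-(I * (t : ℂ)))
        else 0) * (n : ℂ) ^ (-(I * (y : ℂ))) := by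
  have h2 : (Finset.Icc 1 X).filter (fun n => N < n) = Finset.Ioc N X := by
    ext n
    simp only [Finset.mem_filter, Finset.mem_Icc, Finset.mem_Ioc]
    omega
  simp only [ite_mul, zero_mul]
  rw [← Finset.sum_filter, h2]
  simp only [PN_sub N X hNX, Finset.sum_mul, Finset.mul_sum]
  rw [Finset.sum_comm]
  refine Finset.sum_congr rfl fun n _ => Finset.sum_congr rfl fun t _ => ?_
  ring

/-- the integral of the second part -/
lemma B_int (C : ℝ) (hC : 0 < C) (T : ℝ) (X N : ℕ) (_hT : 5 ≤ T) (hNX : N ≤ X) (hN1 : 1 ≤ N)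
    (hX : (X : ℝ) ≤ 5 * T)
    (h : ∀ a : ℕ → ℂ, ∫ u in (0:ℝ)..(2 * T), ‖∑ n ∈ Finset.Icc 1 X, a n * (n : ℂ) ^ (-(I * u))‖ ^ 2 ≤
      C * ∑ n ∈ Finset.Icc 1 X, (T + n) * ‖a n‖ ^ 2) (L : Finset ℝ) (R : ℝ → ℂ) :
    ∫ y in (0 : ℝ)..(2 * T), ‖∑ t ∈ L, (PN X (t + y) - PN N (t + y)) * R t‖ ^ 2 ≤
      C * (6 * T) * ∑ n ∈ Finset.Ioc N X, ‖∑ t ∈ L, R t * (n : ℂ) ^ (-(I * (t : ℂ)))‖ ^ 2 / (n : ℝ) := by
  simp only [B_eq N X hNX]
  refine le_trans (h _) ?_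
  rw [mul_assoc]
  refine mul_le_mul_of_nonneg_left ?_ hC.le
  have h2 : (Finset.Icc 1 X).filter (fun n => N < n) = Finset.Ioc N X := by
    ext n
    simp only [Finset.mem_filter, Finset.mem_Icc, Finset.mem_Ioc]
    omega
  rw [← h2, Finset.sum_filter, Finset.mul_sum]
  refine Finset.sum_le_sum fun n hn => ?_
  split_ifs with hNn
  · have hn1 := (Finset.mem_Icc.1 hn).1
    have hn2 : (n : ℝ) ≤ X := by exact_mod_cast (Finset.mem_Icc.1 hn).2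
    have hn0 : (0 : ℝ) < n := by exact_mod_cast hn1
    rw [norm_mul, mul_pow, Complex.norm_real, Real.norm_of_nonneg (by positivity)]
    have h3 : ((n : ℝ) ^ (-(1 / 2 : ℝ))) ^ 2 = 1 / n := by
      rw [← Real.rpow_natCast, ← Real.rpow_mul hn0.le]
      norm_num
      rw [Real.rpow_neg_one]
    rw [h3]
    have h4 : T + n ≤ 6 * T := by linarith
    calc (T + n) * (1 / n * ‖∑ t ∈ L, R t * (n : ℂ) ^ (-(I * (t : ℂ)))‖ ^ 2)
        ≤ 6 * T * (1 / n * ‖∑ t ∈ L, R t * (n : ℂ) ^ (-(I * (t : ℂ)))‖ ^ 2) := by gcongr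
      _ = _ := by ring
  · simp

/-- the first part, pointwise -/
lemma A_le (C : ℝ) (hC : 0 < C) (T : ℝ) (hT : 5 ≤ T) (X : ℕ) (hX1 : 4 * T ≤ X) (hX2 : (X : ℝ) ≤ 5 * T)
    (h : ∀ u : ℝ, 1 ≤ u → 2 * u ≤ X → ‖z u - PN X u‖ ≤ C * (X : ℝ) ^ (1 / 2 : ℝ) / u)
    (L : Finset ℝ) (hL : ∀ t ∈ L, 0 ≤ t ∧ t ≤ T) (R : ℝ → ℂ) (y : ℝ) (hy1 : T ^ (3 / 4 : ℝ) ≤ y)
    (hy2 : y ≤ T) :
    ‖∑ t ∈ L, (z (t + y) - PN X (t + y)) * R t‖ ^ 2 ≤
      9 * C ^ 2 * T ^ (-(1 / 2) : ℝ) * L.card * ∑ t ∈ L, ‖R t‖ ^ 2 := by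
  have hT0 : 0 < T := by linarith
  have hp : 1 ≤ T ^ (3 / 4 : ℝ) := Real.one_le_rpow (by linarith) (by norm_num)
  have hb : ∀ t ∈ L, ‖z (t + y) - PN X (t + y)‖ ^ 2 ≤ 9 * C ^ 2 * T ^ (-(1 / 2) : ℝ) := by
    intro t ht
    obtain ⟨h1, h2⟩ := hL t ht
    have h3 := h (t + y) (by linarith) (by linarith)
    have h4 : C * (X : ℝ) ^ (1 / 2 : ℝ) / (t + y) ≤ C * (9 * T) ^ (1 / 2 : ℝ) / T ^ (3 / 4 : ℝ) := by
      gcongr
      · linarith
      · linarith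
    have h5 : (C * (9 * T) ^ (1 / 2 : ℝ) / T ^ (3 / 4 : ℝ)) ^ 2 = 9 * C ^ 2 * T ^ (-(1 / 2) : ℝ) := by
      rw [div_pow, mul_pow, ← Real.rpow_natCast ((9 * T) ^ (1 / 2 : ℝ)), ← Real.rpow_mul (by positivity),
        ← Real.rpow_natCast (T ^ (3 / 4 : ℝ)), ← Real.rpow_mul hT0.le]
      norm_num
      rw [show (-(1 / 2) : ℝ) = 1 - 3 / 2 by norm_num, Real.rpow_sub hT0, Real.rpow_one]
      ring
    calc ‖z (t + y) - PN X (t + y)‖ ^ 2 ≤ (C * (9 * T) ^ (1 / 2 : ℝ) / T ^ (3 / 4 : ℝ)) ^ 2 :=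
          pow_le_pow_left₀ (norm_nonneg _) (le_trans h3 h4) 2
      _ = _ := h5
  calc ‖∑ t ∈ L, (z (t + y) - PN X (t + y)) * R t‖ ^ 2
      ≤ (∑ t ∈ L, ‖z (t + y) - PN X (t + y)‖ * ‖R t‖) ^ 2 := by
        refine pow_le_pow_left₀ (norm_nonneg _) ?_ 2
        refine le_trans (norm_sum_le _ _) (le_of_eq ?_)
        exact Finset.sum_congr rfl fun t _ => norm_mul _ _
    _ ≤ (∑ t ∈ L, ‖z (t + y) - PN X (t + y)‖ ^ 2) * ∑ t ∈ L, ‖R t‖ ^ 2 :=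
        Finset.sum_mul_sq_le_sq_mul_sq _ _ _
    _ ≤ (∑ t ∈ L, 9 * C ^ 2 * T ^ (-(1 / 2) : ℝ)) * ∑ t ∈ L, ‖R t‖ ^ 2 := by
        refine mul_le_mul_of_nonneg_right (Finset.sum_le_sum hb) (Finset.sum_nonneg fun _ _ => by positivity)
    _ = _ := by
        rw [Finset.sum_const, nsmul_eq_mul]
        ring

/-- the number of blocks -/
lemma numBlocks (T : ℝ) (hT : 5 ≤ T) (X : ℕ) (hX0 : 1 ≤ X) (hX : (X : ℝ) ≤ 5 * T) :
    X ≤ 2 ^ (Nat.log 2 X + 1) ∧ ((Nat.log 2 X + 1 : ℕ) : ℝ) ≤ 4 * Real.log T ∧ 1 ≤ Real.log T := by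
  have hT0 : 0 < T := by linarith
  have hlog1 : 1 ≤ Real.log T := by
    rw [Real.le_log_iff_exp_le hT0]
    have := Real.exp_one_lt_d9
    linarith
  refine ⟨(Nat.lt_pow_succ_log_self one_lt_two X).le, ?_, hlog1⟩
  have h1 : 2 ^ Nat.log 2 X ≤ X := Nat.pow_log_le_self 2 (by omega)
  have h2 : ((2 : ℝ)) ^ Nat.log 2 X ≤ T ^ 2 := by
    have : ((2 : ℝ)) ^ Nat.log 2 X ≤ X := by exact_mod_cast h1
    nlinarith
  have h3 := Real.log_le_log (by positivity) h2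
  rw [Real.log_pow, Real.log_pow] at h3
  have h4 := Real.log_two_gt_d9
  push_cast at h3 ⊢
  have h5 : (Nat.log 2 X : ℝ) * 0.6931471803 ≤ 2 * Real.log T := by
    refine le_trans ?_ h3
    gcongr
  nlinarith

/-- the constants -/
lemma large (δ K : ℝ) (hδ : 0 < δ) (hK : 0 < K) :
    ∃ T₀ : ℝ, ∀ T : ℝ, T₀ ≤ T → K * Real.log T ^ 2 ≤ T ^ (δ / 2) := by
  have h := isLittleO_log_rpow_rpow_atTop 2 (half_pos hδ)
  have h2 := h.bound (inv_pos.2 hK)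
  have h3 := h2.and (eventually_ge_atTop (1 : ℝ))
  obtain ⟨T₀, hT₀⟩ := eventually_atTop.1 h3
  refine ⟨T₀, fun T hT => ?_⟩
  obtain ⟨h4, h5⟩ := hT₀ T hT
  have hl : 0 ≤ Real.log T := Real.log_nonneg h5
  rw [Real.norm_of_nonneg (by positivity), Real.norm_of_nonneg (by positivity)] at h4
  have h6 : Real.log T ^ (2 : ℝ) = Real.log T ^ 2 := Real.rpow_two _
  rw [h6] at h4
  calc K * Real.log T ^ 2 ≤ K * (K⁻¹ * T ^ (δ / 2)) := by gcongr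
    _ = _ := by field_simp

theorem t_KD (h1 : S_EM1) (h2 : S_DL) : S_KD := by
  intro η θ hη hθ
  obtain ⟨C1, hC1, hE⟩ := h1
  obtain ⟨κ, C2, hκ, -, hC2, hD⟩ := h2 θ hθ
  obtain ⟨C3, hC3, hMV⟩ := Pool.Agent.TH928.GS.t_MV
  obtain ⟨δ, hδdef⟩ : ∃ δ, δ = min (min η (θ * κ)) (1 / 2) := ⟨_, rfl⟩
  have hδ : 0 < δ := by
    rw [hδdef]
    exact lt_min (lt_min hη (mul_pos hθ hκ)) (by norm_num)
  have hδ1 : δ ≤ η := by rw [hδdef]; exact le_trans (min_le_left _ _) (min_le_left _ _)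
  have hδ2 : δ ≤ θ * κ := by rw [hδdef]; exact le_trans (min_le_left _ _) (min_le_right _ _)
  have hδ3 : δ ≤ 1 / 2 := by rw [hδdef]; exact min_le_right _ _
  obtain ⟨T₁, hT₁⟩ := large δ (18 * C1 ^ 2 + 96 * (C2 * C3)) hδ (by positivity)
  refine ⟨δ / 2, max T₁ 5, half_pos hδ, le_trans (by norm_num) (le_max_right _ _), ?_⟩
  intro T L N R hT hL hLc hN hNT
  have hT5 : 5 ≤ T := le_trans (le_max_right _ _) hT
  have hT0 : 0 < T := by linarith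
  have hT1 : 1 ≤ T := by linarith
  have hTK := hT₁ T (le_trans (le_max_left _ _) hT)
  set X := ⌈4 * T⌉₊ with hXdef
  have hX1 : 4 * T ≤ X := Nat.le_ceil _
  have hX2 : (X : ℝ) ≤ 5 * T := by
    have := Nat.ceil_lt_add_one (show 0 ≤ 4 * T by positivity)
    rw [← hXdef] at this
    linarith
  have hN1 : 1 ≤ N := by
    have : (1 : ℝ) ≤ N := le_trans (Real.one_le_rpow hT1 hθ.le) hN
    exact_mod_cast this
  have hNX : N ≤ X := by
    have : (N : ℝ) ≤ X := by linarith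
    exact_mod_cast this
  obtain ⟨hJ1, hJ2, hlog⟩ := numBlocks T hT5 X (le_trans hN1 hNX) hX2
  set J := Nat.log 2 X + 1 with hJdef
  set S := ∑ t ∈ L, ‖R t‖ ^ 2 with hSdef
  have hS : 0 ≤ S := Finset.sum_nonneg fun _ _ => by positivity
  have hB := B_int C3 hC3 T X N hT5 hNX hN1 hX2
    (fun a => hMV T X a hT1 (by nlinarith)) L R
  have hbl := blocks κ C2 θ T hκ hC2 hθ (by linarith) L R N X J hN
    (le_trans hJ1 (Nat.le_mul_of_pos_right _ hN1))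
    (fun M hM => hD T L R M (2 * M) (by linarith) hL hM (by omega) le_rfl)
  rw [← hSdef] at hbl
  have hcz := z_cont
  have hcN := PN_cont N
  have hcX := PN_cont X
  have hc1 : Continuous fun y : ℝ => ‖∑ t ∈ L, (z (t + y) - PN N (t + y)) * R t‖ ^ 2 := by
    refine Continuous.pow (Continuous.norm (continuous_finsetSum _ fun t _ => ?_)) 2
    exact ((hcz.comp (by fun_prop)).sub (hcN.comp (by fun_prop))).mul continuous_const
  have hc2 : Continuous fun y : ℝ => ‖∑ t ∈ L, (PN X (t + y) - PN N (t + y)) * R t‖ ^ 2 := by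
    refine Continuous.pow (Continuous.norm (continuous_finsetSum _ fun t _ => ?_)) 2
    exact ((hcX.comp (by fun_prop)).sub (hcN.comp (by fun_prop))).mul continuous_const
  have hab : T ^ (3 / 4 : ℝ) ≤ T := by
    calc T ^ (3 / 4 : ℝ) ≤ T ^ (1 : ℝ) := Real.rpow_le_rpow_of_exponent_le hT1 (by norm_num)
      _ = T := Real.rpow_one T
  have hp0 : 0 ≤ T ^ (3 / 4 : ℝ) := by positivity
  set Q := 9 * C1 ^ 2 * T ^ (-(1 / 2) : ℝ) * L.card * S with hQ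
  have hQ0 : 0 ≤ Q := by positivity
  have e1 : ∫ y in (T ^ (3 / 4 : ℝ))..T, ‖∑ t ∈ L, (z (t + y) - PN N (t + y)) * R t‖ ^ 2 ≤
      ∫ y in (T ^ (3 / 4 : ℝ))..T, (2 * Q +
        2 * ‖∑ t ∈ L, (PN X (t + y) - PN N (t + y)) * R t‖ ^ 2) := by
    refine intervalIntegral.integral_mono_on hab (hc1.intervalIntegrable _ _)
      ((continuous_const.add (continuous_const.mul hc2)).intervalIntegrable _ _) ?_
    intro y hy
    have hA := A_le C1 hC1 T hT5 X hX1 hX2 (fun u h3 h4 => hE X u h3 h4) L hL.1 R y hy.1 hy.2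
    have h3 : ∑ t ∈ L, (z (t + y) - PN N (t + y)) * R t =
        ∑ t ∈ L, (z (t + y) - PN X (t + y)) * R t +
          ∑ t ∈ L, (PN X (t + y) - PN N (t + y)) * R t := by
      rw [← Finset.sum_add_distrib]
      exact Finset.sum_congr rfl fun t _ => by ring
    rw [h3]
    have h4 := norm_add_le (∑ t ∈ L, (z (t + y) - PN X (t + y)) * R t)
      (∑ t ∈ L, (PN X (t + y) - PN N (t + y)) * R t)
    have h5 := pow_le_pow_left₀ (norm_nonneg _) h4 2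
    nlinarith [sq_nonneg (‖∑ t ∈ L, (z (t + y) - PN X (t + y)) * R t‖ -
      ‖∑ t ∈ L, (PN X (t + y) - PN N (t + y)) * R t‖)]
  have e2 : ∫ y in (T ^ (3 / 4 : ℝ))..T, (2 * Q +
        2 * ‖∑ t ∈ L, (PN X (t + y) - PN N (t + y)) * R t‖ ^ 2) ≤
      2 * Q * T + 2 * ∫ y in (0 : ℝ)..(2 * T),
        ‖∑ t ∈ L, (PN X (t + y) - PN N (t + y)) * R t‖ ^ 2 := by
    have i1 : IntervalIntegrable (fun _ : ℝ => 2 * Q) volume (T ^ (3 / 4 : ℝ)) T :=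
      continuous_const.intervalIntegrable _ _
    have i2 : IntervalIntegrable (fun y : ℝ =>
        2 * ‖∑ t ∈ L, (PN X (t + y) - PN N (t + y)) * R t‖ ^ 2) volume (T ^ (3 / 4 : ℝ)) T :=
      (continuous_const.mul hc2).intervalIntegrable _ _
    rw [intervalIntegral.integral_add i1 i2, intervalIntegral.integral_const,
      intervalIntegral.integral_const_mul, smul_eq_mul]
    have h6 := intervalIntegral.integral_mono_interval (μ := volume) (f := fun y : ℝ =>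
      ‖∑ t ∈ L, (PN X (t + y) - PN N (t + y)) * R t‖ ^ 2) hp0 hab (show T ≤ 2 * T by linarith)
      (Eventually.of_forall fun y => by positivity) (hc2.intervalIntegrable _ _)
    have h7 : (T - T ^ (3 / 4 : ℝ)) * (2 * Q) ≤ 2 * Q * T := by nlinarith
    linarith
  refine le_trans e1 (le_trans e2 ?_)
  have hcard : (0 : ℝ) ≤ L.card := by positivity
  -- the logarithm in terms of the number of the heights
  have hδT : T ^ (-η) ≤ T ^ (-δ) := Real.rpow_le_rpow_of_exponent_le hT1 (by linarith)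
  have hδT2 : T ^ (-(θ * κ)) ≤ T ^ (-δ) := Real.rpow_le_rpow_of_exponent_le hT1 (by linarith)
  have hone : 1 ≤ L.card * T ^ (-η) := by
    calc (1 : ℝ) = T ^ η * T ^ (-η) := by rw [← Real.rpow_add hT0, add_neg_cancel, Real.rpow_zero]
      _ ≤ _ := by gcongr
  have hsum : Real.log T + L.card * T ^ (-(θ * κ)) ≤ 2 * Real.log T * (L.card * T ^ (-δ)) := by
    have a1 : Real.log T ≤ Real.log T * (L.card * T ^ (-δ)) := by
      have : 1 ≤ L.card * T ^ (-δ) := le_trans hone (by gcongr)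
      nlinarith
    have a2 : L.card * T ^ (-(θ * κ)) ≤ Real.log T * (L.card * T ^ (-δ)) := by
      calc L.card * T ^ (-(θ * κ)) ≤ 1 * (L.card * T ^ (-δ)) := by
            rw [one_mul]
            gcongr
        _ ≤ _ := by gcongr
    linarith
  have hB2 : ∫ y in (0 : ℝ)..(2 * T), ‖∑ t ∈ L, (PN X (t + y) - PN N (t + y)) * R t‖ ^ 2 ≤
      48 * (C2 * C3) * Real.log T ^ 2 * (T * T ^ (-δ)) * L.card * S := by
    calc ∫ y in (0 : ℝ)..(2 * T), ‖∑ t ∈ L, (PN X (t + y) - PN N (t + y)) * R t‖ ^ 2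
        ≤ C3 * (6 * T) * (J * (C2 * (Real.log T + L.card * T ^ (-(θ * κ))) * S)) :=
          le_trans hB (mul_le_mul_of_nonneg_left hbl (by positivity))
      _ ≤ C3 * (6 * T) * ((4 * Real.log T) *
          (C2 * (2 * Real.log T * (L.card * T ^ (-δ))) * S)) := by
          gcongr
      _ = _ := by ring
  have hfin : T ^ (1 - δ / 2) = T ^ (δ / 2) * (T * T ^ (-δ)) := by
    rw [← Real.rpow_one_add' hT0.le (by linarith), ← Real.rpow_add hT0]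
    congr 1
    ring
  have hhalf : T ^ (-(1 / 2) : ℝ) ≤ T ^ (-δ) := Real.rpow_le_rpow_of_exponent_le hT1 (by linarith)
  have hQ2 : 2 * Q * T ≤ 18 * C1 ^ 2 * Real.log T ^ 2 * (T * T ^ (-δ)) * L.card * S := by
    calc 2 * Q * T = 18 * C1 ^ 2 * 1 * (T * T ^ (-(1 / 2) : ℝ)) * L.card * S := by
          rw [hQ]
          ring
      _ ≤ _ := by
          have : 1 ≤ Real.log T ^ 2 := one_le_pow₀ hlog
          gcongr
  calc 2 * Q * T + 2 * ∫ y in (0 : ℝ)..(2 * T),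
        ‖∑ t ∈ L, (PN X (t + y) - PN N (t + y)) * R t‖ ^ 2
      ≤ 18 * C1 ^ 2 * Real.log T ^ 2 * (T * T ^ (-δ)) * L.card * S +
        2 * (48 * (C2 * C3) * Real.log T ^ 2 * (T * T ^ (-δ)) * L.card * S) := by
        linarith
    _ = ((18 * C1 ^ 2 + 96 * (C2 * C3)) * Real.log T ^ 2) * (T * T ^ (-δ)) * L.card * S := by ring
    _ ≤ T ^ (δ / 2) * (T * T ^ (-δ)) * L.card * S := by gcongr
    _ = _ := by rw [← hfin]

end Pool.Agent.N378.SX
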