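import Pool.Agent.N879.SX.Stm
import Pool.Agent.TH928.GS.MV
import Pool.Agent.TH448.GS.FL2
import Pool.Agent.TH367.GS.SS
import Pool.Agent.TH757.GS.CONT
import Pool.Agent.TH753.GS.GL2
import Pool.Agent.TH811.GS.One
import Pool.Agent.TH228.GS.ZM
import Pool.Agent.TH347.GS.A4

set_option autoImplicit false

/-!
Project SX, part MAI (helper378): the main term for short polynomials.
-/

namespace Pool.Agent.N378.SX

open Complex Filter Topology MeasureTheory Set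
open Pool.Agent.TH612.GS Pool.Agent.N879.SX

/-- the conditions for large `T` -/
lemma large_T (k B : ℕ) (θ K : ℝ) (M0 T5 : ℝ) (hθ : 0 < θ) (hK : 0 < K) :
    ∃ T₀ : ℝ, ∀ T : ℝ, T₀ ≤ T → 3 ≤ T ∧ T5 ≤ T ∧ K * Real.log T ^ B ≤ T ^ (θ / 16) ∧ M0 ≤ T ^ θ ∧
      2 ≤ T ^ θ ∧ 2 ^ (4 * k + 3) ≤ T ^ (1 / 2 : ℝ) ∧ 2 ^ (3 * k ^ 2 + 1) ≤ T ^ (1 / 2 : ℝ) ∧
      2 ≤ T ^ (3 / 8 : ℝ) := by
  have h1 := (isLittleO_log_rpow_rpow_atTop (B : ℝ) (show 0 < θ / 16 by positivity)).bound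
    (inv_pos.2 hK)
  have h2 := (tendsto_rpow_atTop hθ).eventually_ge_atTop M0
  have h3 := (tendsto_rpow_atTop hθ).eventually_ge_atTop 2
  have h4 := (tendsto_rpow_atTop (show (0 : ℝ) < 1 / 2 by norm_num)).eventually_ge_atTop
    ((2 : ℝ) ^ (4 * k + 3))
  have h5 := (tendsto_rpow_atTop (show (0 : ℝ) < 1 / 2 by norm_num)).eventually_ge_atTop
    ((2 : ℝ) ^ (3 * k ^ 2 + 1))
  have h6 := (tendsto_rpow_atTop (show (0 : ℝ) < 3 / 8 by norm_num)).eventually_ge_atTop 2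
  obtain ⟨T₀, hT₀⟩ := eventually_atTop.1 (h1.and (h2.and (h3.and (h4.and (h5.and (h6.and
    ((eventually_ge_atTop (3 : ℝ)).and (eventually_ge_atTop T5))))))))
  refine ⟨T₀, fun T hT => ?_⟩
  obtain ⟨a1, a2, a3, a4, a5, a6, a7, a8⟩ := hT₀ T hT
  refine ⟨a7, a8, ?_, a2, a3, a4, a5, a6⟩
  have hl : 0 ≤ Real.log T := Real.log_nonneg (by linarith)
  rw [Real.norm_of_nonneg (by positivity), Real.norm_of_nonneg (by positivity),
    Real.rpow_natCast] at a1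
  calc K * Real.log T ^ B ≤ K * (K⁻¹ * T ^ (θ / 16)) := by gcongr
    _ = _ := by field_simp

/-- powers of `N` -/
lemma N_pow (T θ : ℝ) (N j : ℕ) (hT : 1 ≤ T) (hN : (N : ℝ) ≤ 2 * T ^ θ) (hj : θ * j ≤ 1 / 2)
    (h2 : 2 ^ (j + 1) ≤ T ^ (1 / 2 : ℝ)) : 2 * (N : ℝ) ^ j ≤ T := by
  have hT0 : 0 < T := by linarith
  calc 2 * (N : ℝ) ^ j ≤ 2 * (2 * T ^ θ) ^ j := by gcongr
    _ = 2 ^ (j + 1) * (T ^ θ) ^ j := by ring
    _ = 2 ^ (j + 1) * T ^ (θ * j) := by rw [← Real.rpow_natCast (T ^ θ), ← Real.rpow_mul hT0.le]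
    _ ≤ T ^ (1 / 2 : ℝ) * T ^ (1 / 2 : ℝ) := by
        have : T ^ (θ * j) ≤ T ^ (1 / 2 : ℝ) := Real.rpow_le_rpow_of_exponent_le hT hj
        gcongr
    _ = T := by
        rw [← Real.rpow_add hT0]
        norm_num

/-- the size of each of the three exceptional sets -/
lemma piece (T θ P A : ℝ) (k : ℕ) (hT : 1 ≤ T) (hθ : 0 < θ) (hA : 27 * P ≤ T ^ (θ / 16))
    (hA0 : 0 ≤ A) (hAn : A ≤ T ^ (-(θ / 8))) (hP : 0 ≤ P) :
    P * T ^ (2 * k) * A / (T ^ (-(θ / 100)) / 3) ^ 2 ≤ 1 / 3 * T ^ (2 * k - θ / 100 : ℝ) := by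
  have hT0 : 0 < T := by linarith
  have h1 : (T ^ (-(θ / 100)) / 3) ^ 2 = T ^ (-(θ / 50)) / 9 := by
    rw [div_pow, ← Real.rpow_natCast, ← Real.rpow_mul hT0.le]
    norm_num
    congr 1
    ring
  rw [h1]
  have h2 : (T : ℝ) ^ (2 * k) = T ^ (2 * k : ℝ) := by
    rw [← Real.rpow_natCast]
    push_cast
    rfl
  rw [h2]
  rw [div_le_iff₀ (by positivity)]
  have h3 : 9 * P ≤ 1 / 3 * T ^ (θ / 16) := by linarith
  calc P * T ^ (2 * k : ℝ) * A = 1 / 9 * ((9 * P) * T ^ (2 * k : ℝ) * A) := by ring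
    _ ≤ 1 / 9 * ((1 / 3 * T ^ (θ / 16)) * T ^ (2 * k : ℝ) * T ^ (-(θ / 8))) := by gcongr
    _ = 1 / 27 * T ^ (θ / 16 + 2 * k + -(θ / 8)) := by
        rw [Real.rpow_add hT0, Real.rpow_add hT0]
        ring
    _ ≤ 1 / 27 * T ^ (2 * k - θ / 100 + -(θ / 50)) := by
        have : T ^ (θ / 16 + 2 * k + -(θ / 8)) ≤ T ^ (2 * k - θ / 100 + -(θ / 50)) :=
          Real.rpow_le_rpow_of_exponent_le hT (by linarith)
        linarith
    _ = _ := by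
        rw [Real.rpow_add hT0]
        ring

theorem t_MAI0 (hSS : S_SS) (hA4 : S_A4) (hZM : S_ZM) : S_MAI := by
  intro k
  obtain ⟨ψ, hψ⟩ := exists_cut
  obtain ⟨C3, hC3, h3⟩ := hSS k ψ hψ
  obtain ⟨C4, M0, hC4, hM0, h4⟩ := hA4 k ψ hψ
  obtain ⟨C5, T5, B5, hC5, hT5, h5⟩ := hZM k
  refine ⟨1 / (8 * ((k : ℝ) ^ 2 + k + 1)), by positivity, ?_⟩
  intro θ hθ hθ0
  have hk : (0 : ℝ) ≤ k := by positivity
  have hθk : θ * (8 * ((k : ℝ) ^ 2 + k + 1)) ≤ 1 := by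
    rwa [le_div_iff₀ (by positivity)] at hθ0
  obtain ⟨T₀, hT₀⟩ := large_T k B5 θ (27 * (C3 + C4 + C5)) M0 T5 hθ (by positivity)
  refine ⟨θ / 100, T₀, by positivity, ?_⟩
  intro T N hT hN1 hN2
  obtain ⟨a1, a2, a3, a4, a5, a6, a7, a8⟩ := hT₀ T hT
  have hT1 : 1 ≤ T := by linarith
  have hT0 : 0 < T := by linarith
  have hlog : 1 ≤ Real.log T := by
    rw [Real.le_log_iff_exp_le hT0]
    have := Real.exp_one_lt_d9
    linarith
  have hlB : 1 ≤ Real.log T ^ B5 := one_le_pow₀ hlog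
  have hN2' : 2 ≤ N := by
    have : (2 : ℝ) ≤ N := le_trans a5 hN1
    exact_mod_cast this
  have hNM : M0 ≤ N := by
    have : (M0 : ℝ) ≤ N := le_trans a4 hN1
    exact_mod_cast this
  have hNpos : (0 : ℝ) < N := by
    have : 0 < N := by omega
    exact_mod_cast this
  have p1 : 2 * (N : ℝ) ^ (4 * k + 2) ≤ T := by
    refine N_pow T θ N (4 * k + 2) hT1 hN2 ?_ a6
    push_cast
    nlinarith [mul_nonneg hθ.le hk, mul_nonneg hθ.le (sq_nonneg (k : ℝ))]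
  have p2 : 2 * (N : ℝ) ^ (3 * k ^ 2) ≤ T := by
    refine N_pow T θ N (3 * k ^ 2) hT1 hN2 ?_ a7
    push_cast
    nlinarith [mul_nonneg hθ.le hk, mul_nonneg hθ.le (sq_nonneg (k : ℝ))]
  have p3 : (N : ℝ) ≤ T ^ (1 / 2 : ℝ) := by
    have hθ8 : θ ≤ 1 / 8 := by
      nlinarith [mul_nonneg hθ.le hk, mul_nonneg hθ.le (sq_nonneg (k : ℝ))]
    calc (N : ℝ) ≤ 2 * T ^ θ := hN2
      _ ≤ T ^ (3 / 8 : ℝ) * T ^ (1 / 8 : ℝ) := by
          have : T ^ θ ≤ T ^ (1 / 8 : ℝ) := Real.rpow_le_rpow_of_exponent_le hT1 hθ8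
          gcongr
      _ = T ^ (1 / 2 : ℝ) := by
          rw [← Real.rpow_add hT0]
          norm_num
  have q1 : (N : ℝ) ^ (-(1 / 8) : ℝ) ≤ T ^ (-(θ / 8)) := by
    calc (N : ℝ) ^ (-(1 / 8) : ℝ) ≤ (T ^ θ) ^ (-(1 / 8) : ℝ) :=
          Real.rpow_le_rpow_of_nonpos (Real.rpow_pos_of_pos hT0 _) hN1 (by norm_num)
      _ = _ := by
          rw [← Real.rpow_mul hT0.le]
          congr 1
          ring
  have q2 : 1 / (N : ℝ) ≤ T ^ (-(θ / 8)) := by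
    calc 1 / (N : ℝ) ≤ 1 / T ^ θ := by
          apply one_div_le_one_div_of_le (Real.rpow_pos_of_pos hT0 _) hN1
      _ = T ^ (-θ) := by rw [Real.rpow_neg hT0.le, one_div]
      _ ≤ _ := Real.rpow_le_rpow_of_exponent_le hT1 (by linarith)
  set lam : ℝ := T ^ (-(θ / 100)) / 3 with hlam
  have hlam0 : 0 < lam := by positivity
  set b : ℝ := 1 / 3 * T ^ (2 * k - θ / 100 : ℝ) with hb
  have hb0 : 0 ≤ b := by positivity
  have hKl : 27 * (C3 + C4 + C5) * 1 ≤ 27 * (C3 + C4 + C5) * Real.log T ^ B5 := by gcongr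
  have u3 : mP (Fin k ⊕ Fin k) T {γ | lam < ‖SN N γ - SP ψ N γ‖} ≤ ENNReal.ofReal b := by
    refine (cheb (((SN_cont N).sub (SP_cont ψ N)).norm.aemeasurable) hlam0
      (h3 T N hN2' p1)).trans (ENNReal.ofReal_le_ofReal ?_)
    exact piece T θ C3 _ k hT1 hθ (by linarith) (by positivity) q1 hC3.le
  have u4 : mP (Fin k ⊕ Fin k) T {γ | lam < ‖SP ψ N γ - GM N γ 0‖} ≤ ENNReal.ofReal b := by
    refine (cheb (((SP_cont ψ N).sub (GM0_cont N)).norm.aemeasurable) hlam0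
      (h4 T N hNM hT1 p2)).trans (ENNReal.ofReal_le_ofReal ?_)
    exact piece T θ C4 _ k hT1 hθ (by linarith) (by positivity) q1 hC4.le
  have u5 : mP (Fin k ⊕ Fin k) T (Sep k T ∩ {γ | lam < ‖GM N γ 0 - zr γ‖}) ≤
      ENNReal.ofReal b := by
    have hm : AEMeasurable (fun γ : Fin k ⊕ Fin k → ℝ => ‖GM N γ 0 - zr γ‖)
        ((mP (Fin k ⊕ Fin k) T).restrict (Sep k T)) :=
      (((GM0_cont N).continuousOn.sub (zr_cont hT1)).norm).aemeasurable (Sep_meas k T)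
    have hcb := cheb hm (lam := lam) hlam0 (h5 T N a2 (by omega) p3)
    have e0 : mP (Fin k ⊕ Fin k) T (Sep k T ∩ {γ | lam < ‖GM N γ 0 - zr γ‖}) ≤
        ((mP (Fin k ⊕ Fin k) T).restrict (Sep k T)) {γ | lam < ‖GM N γ 0 - zr γ‖} := by
      rw [inter_comm]
      exact Measure.le_restrict_apply _ _
    refine e0.trans (hcb.trans (ENNReal.ofReal_le_ofReal ?_))
    have h6 := piece T θ (C5 * Real.log T ^ B5) (1 / (N : ℝ)) k hT1 hθ (by nlinarith)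
      (by positivity) q2 (by positivity)
    refine le_trans (le_of_eq ?_) h6
    ring
  have hsub : Sep k T ∩ {γ | T ^ (-(θ / 100)) < ‖SN N γ - zr γ‖} ⊆
      ({γ | lam < ‖SN N γ - SP ψ N γ‖} ∪ {γ | lam < ‖SP ψ N γ - GM N γ 0‖}) ∪
        (Sep k T ∩ {γ | lam < ‖GM N γ 0 - zr γ‖}) := by
    rintro γ ⟨hγ1, hγ2⟩
    by_contra hcon
    have n1 : ¬ lam < ‖SN N γ - SP ψ N γ‖ := fun h => hcon (Or.inl (Or.inl h))
    have n2 : ¬ lam < ‖SP ψ N γ - GM N γ 0‖ := fun h => hcon (Or.inl (Or.inr h))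
    have n3 : ¬ lam < ‖GM N γ 0 - zr γ‖ := fun h => hcon (Or.inr ⟨hγ1, h⟩)
    rw [not_lt] at n1 n2 n3
    have hγ3 : T ^ (-(θ / 100)) < ‖SN N γ - zr γ‖ := hγ2
    have e : SN N γ - zr γ = (SN N γ - SP ψ N γ) + (SP ψ N γ - GM N γ 0) + (GM N γ 0 - zr γ) := by
      ring
    have t1 := norm_add₃_le (a := SN N γ - SP ψ N γ) (b := SP ψ N γ - GM N γ 0)
      (c := GM N γ 0 - zr γ)
    rw [← e] at t1
    have : lam + lam + lam = T ^ (-(θ / 100)) := by rw [hlam]; ring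
    linarith
  refine (measure_mono hsub).trans ?_
  refine (measure_union_le _ _).trans ?_
  calc mP (Fin k ⊕ Fin k) T ({γ | lam < ‖SN N γ - SP ψ N γ‖} ∪
        {γ | lam < ‖SP ψ N γ - GM N γ 0‖}) +
        mP (Fin k ⊕ Fin k) T (Sep k T ∩ {γ | lam < ‖GM N γ 0 - zr γ‖})
      ≤ (ENNReal.ofReal b + ENNReal.ofReal b) + ENNReal.ofReal b :=
        add_le_add ((measure_union_le _ _).trans (add_le_add u3 u4)) u5
    _ = ENNReal.ofReal (b + b + b) := by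
        rw [ENNReal.ofReal_add (by positivity) hb0, ENNReal.ofReal_add hb0 hb0]
    _ ≤ _ := by
        refine ENNReal.ofReal_le_ofReal (le_of_eq ?_)
        rw [hb]
        ring

theorem t_MAI : S_MAI :=
  t_MAI0 (Pool.Agent.TH367.GS.t_SS Pool.Agent.TH448.GS.t_FL2)
    (Pool.Agent.TH347.GS.t_A4 Pool.Agent.TH757.GS.t_CONT
      (Pool.Agent.TH753.GS.t_GL2 Pool.Agent.TH448.GS.t_FL2))
    (Pool.Agent.TH228.GS.t_ZM (Pool.Agent.TH811.GS.t_ONE Pool.Agent.TH928.GS.t_MV))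

end Pool.Agent.N378.SX
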